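import Pool.Agent.H93.PG.Targets

set_option autoImplicit false

/-!
# Power-free shifts (`MP_32ebde_an`): row OCL, marker words preceded by a piece of a frame
-/

open MeasureTheory Filter Topology Finset Pool.Agent.H93.PF Pool.Agent.H93.PG

namespace Pool.Agent.H99.PG

/-- the last point of `B` up to `i` -/
theorem ocl_last {B : Set ℤ} (h : ∀ i : ℤ, ∃ s ∈ B, s ≤ i) (i : ℤ) :
    ∃ s ∈ B, s ≤ i ∧ ∀ t ∈ B, t ≤ i → t ≤ s := by
  classical
  obtain ⟨s, hs, hsi⟩ := h i
  obtain ⟨u, ⟨h1, h2⟩, h3⟩ := Int.exists_greatest_of_bdd (P := fun t => t ∈ B ∧ t ≤ i)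
    ⟨i, fun z hz => hz.2⟩ ⟨s, hs, hsi⟩
  exact ⟨u, h1, h2, fun t ht ht' => h3 t ⟨ht, ht'⟩⟩

/-- the content of a tile -/
theorem ocl_cont {d : ℕ} {m : ℕ → ℕ} {c : CT d m} {D : TD c} {B : Set ℤ} {z : ℤ → Fin d}
    {col : ℤ → ℕ} (hT : Tz D B z col) (s : ℤ) (hs : s ∈ B) (g : ℕ) (hg : Nx B s g) :
    ∃ w : Fin D.n → Fin d, w ∈ VV c.t D.K D.n ∧
      ∀ (i : ℕ) (h : i < D.n), z (s + g + c.t.Y - D.n + i) = w ⟨i, h⟩ := by
  obtain ⟨hc, k, hk, hw⟩ := hT.pp s hs g hg
  refine ⟨D.pc (col s) k, D.cc.mem _ _ hc hk, fun i h => ?_⟩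
  exact congrFun hw ⟨i, h⟩

open Classical in
theorem pf_OCL (hFRA : T_FRA) : T_OCL := by
  intro d m c D B z col hT x hx
  obtain ⟨s, hs, hsx, hmax⟩ := ocl_last hT.below (x - 1)
  obtain ⟨g, hgL, hg⟩ := hT.next s hs
  have hxg : x ≤ s + g := by
    by_contra hc
    have h1 := hmax _ hg.2.1 (by omega)
    have h2 := hg.1
    omega
  have hF := (hFRA d m c D B z col hT s hs g hg).2 x (by omega)
  have hlen := D.fr.len
  have hb0 := D.fr.b0
  have hb1 := D.fr.b1
  have hb2 := D.fr.b2
  have hK2 := D.K2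
  have hY0 := c.t.Y0
  have hbig := D.big
  have hLn : D.L = D.n + D.N0 := rfl
  rcases lt_trichotomy x (s + g + c.t.Y - D.n) with hlt | heq | hgt
  · obtain ⟨hg1, hx1⟩ := hF hlt hx
    have hg' : Nx B s (D.L + 1) := hg1 ▸ hg
    refine ⟨fun h1 => ?_, fun _ => ⟨s, hs, hg', hx1⟩⟩
    exfalso
    obtain ⟨y, hy, hne⟩ := D.fr.d1
    apply hne
    have a1 := h1 y hy
    have a2 := hT.f1 s hs hg' (D.k1 - 1 - y) (by omega)
    have e : x - 1 - (y : ℤ) = s + c.t.Y + ((D.k1 - 1 - y : ℕ) : ℤ) := by omega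
    rw [e, a2] at a1
    exact a1
  · have hbef : ∀ i : ℕ, i < D.K → z (x - 1 - i) = c.t.rt i := by
      intro i hi
      rcases hgL with hgL | hgL
      · have hg' : Nx B s D.L := hgL ▸ hg
        have a2 := hT.fs s hs hg' (D.N0 - 1 - i) (by omega)
        have e : x - 1 - (i : ℤ) = s + c.t.Y + ((D.N0 - 1 - i : ℕ) : ℤ) := by
          subst hgL
          rw [hLn] at heq
          push_cast at heq
          omega
        rw [e, a2]
        exact D.fr.pal i (by omega)
      · have hg' : Nx B s (D.L + 1) := hgL ▸ hg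
        have a2 := hT.f3 s hs hg' (D.k2 - 1 - i) (by omega)
        have e : x - 1 - (i : ℤ) = s + 2 * c.t.Y + D.k1 + ((D.k2 - 1 - i : ℕ) : ℤ) := by
          subst hgL
          rw [hLn] at heq
          push_cast at heq
          omega
        rw [e, a2]
        congr 1
        omega
    refine ⟨fun _ => ⟨s, hs, g, hg, heq⟩, fun h2 => ?_⟩
    exfalso
    obtain ⟨y, hy, hne⟩ := D.fr.d1
    apply hne
    rw [← h2 y hy, hbef y hy]
  · obtain ⟨w, hw, hwz⟩ := ocl_cont hT s hs g hg
    have hw' := (Finset.mem_filter.1 (show w ∈ Finset.filter _ _ from hw)).2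
    obtain ⟨-, hSt, -, -, -, hT1, -⟩ := hw'
    -- the offset of `x` in the content
    obtain ⟨o, ho⟩ : ∃ o : ℕ, x = s + g + c.t.Y - D.n + o :=
      ⟨(x - (s + g + c.t.Y - D.n)).toNat, by omega⟩
    have ho0 : 0 < o := by omega
    have hon : o + c.t.Y ≤ D.n := by omega
    have hstart : ∀ i : ℕ, i < c.t.Y → z (s + g + c.t.Y - D.n + i) = c.e := by
      intro i hi
      rw [hwz i (by omega), hSt i (by omega) hi, c.ye]
    by_cases hin : D.K ≤ o
    · constructor
      · intro h1
        exfalso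
        refine (hT1 (o - D.K) 0 (by omega)).2 fun y hy hyK => ?_
        rw [← hwz]
        have a1 := h1 (D.K - 1 - y) (by omega)
        have e : x - 1 - ((D.K - 1 - y : ℕ) : ℤ) =
            s + g + c.t.Y - D.n + ((o - D.K + y : ℕ) : ℤ) := by omega
        rw [e] at a1
        rw [a1]
        congr 1
        omega
      · intro h2
        exfalso
        refine (hT1 (o - D.K) (D.k1 - D.K) (by omega)).1 fun y hy hyK => ?_
        rw [← hwz]
        have a1 := h2 (D.K - 1 - y) (by omega)
        have e : x - 1 - ((D.K - 1 - y : ℕ) : ℤ) =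
            s + g + c.t.Y - D.n + ((o - D.K + y : ℕ) : ℤ) := by omega
        rw [e] at a1
        rw [a1]
        congr 1
        omega
    · by_cases hoY : c.t.Y ≤ o
      · constructor
        · intro h1
          exfalso
          obtain ⟨j, hj, hne⟩ := c.t.c2 o ho0
          apply hne
          unfold xx
          rw [if_neg (by omega), c.ye]
          have a1 := h1 (o + j - c.t.Y) (by omega)
          have e : x - 1 - ((o + j - c.t.Y : ℕ) : ℤ) =
              s + g + c.t.Y - D.n + ((c.t.Y - 1 - j : ℕ) : ℤ) := by omega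
          rw [e, hstart _ (by omega)] at a1
          exact a1.symm
        · intro h2
          exfalso
          obtain ⟨j, hj, hne⟩ := c.t.c2 (c.t.Y + D.k1 - o) (by omega)
          apply hne
          unfold xx
          rw [if_neg (by omega), c.ye]
          have a1 := h2 (o - 1 - j) (by omega)
          have e : x - 1 - ((o - 1 - j : ℕ) : ℤ) =
              s + g + c.t.Y - D.n + ((j : ℕ) : ℤ) := by omega
          rw [e, hstart _ hj] at a1
          rw [a1]
          congr 1
          omega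
      · have hz1 : z (x - 1 - ((0 : ℕ) : ℤ)) = c.e := by
          have e : x - 1 - ((0 : ℕ) : ℤ) = s + g + c.t.Y - D.n + ((o - 1 : ℕ) : ℤ) := by omega
          rw [e]
          exact hstart _ (by omega)
        constructor
        · intro h1
          exfalso
          have a1 := h1 0 (by omega)
          rw [hz1] at a1
          exact c.e0 a1.symm
        · intro h2
          exfalso
          have a1 := h2 0 (by omega)
          rw [hz1] at a1
          exact D.fr.l1 a1.symm

end Pool.Agent.H99.PG
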