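import Pool.Agent.H93.PG.Targets

set_option autoImplicit false

/-!
# Power-free shifts (`MP_32ebde_an`): row SM3, no forbidden repetitions with periods `< L`
-/

open MeasureTheory Filter Topology Finset Pool.Agent.H93.PF Pool.Agent.H93.PG

namespace Pool.Agent.H99.PG

/-- the last point of `B` up to `i` -/
theorem sm3_last {B : Set ℤ} (h : ∀ i : ℤ, ∃ s ∈ B, s ≤ i) (i : ℤ) :
    ∃ s ∈ B, s ≤ i ∧ ∀ t ∈ B, t ≤ i → t ≤ s := by
  classical
  obtain ⟨s, hs, hsi⟩ := h i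
  obtain ⟨u, ⟨h1, h2⟩, h3⟩ := Int.exists_greatest_of_bdd (P := fun t => t ∈ B ∧ t ≤ i)
    ⟨i, fun z hz => hz.2⟩ ⟨s, hs, hsi⟩
  exact ⟨u, h1, h2, fun t ht ht' => h3 t ⟨ht, ht'⟩⟩

theorem pf_SM3 (hFRA : T_FRA) (hJJF : T_JJF) (hSMC : T_SMC) : T_SM3 := by
  intro d m c D B z col hT q hq hqL i
  by_contra hcon
  have hP : ∀ t : ℤ, i ≤ t → t + q < i + m q → z (t + q) = z t := by
    intro t h1 h2
    by_contra h3
    exact hcon ⟨t, h1, h2, h3⟩
  have hm2 := c.t.m2 q hq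
  obtain ⟨s, hs, hsx, hmax⟩ := sm3_last hT.below (i - 1)
  obtain ⟨g, hgL, hg⟩ := hT.next s hs
  have hig : i ≤ s + g := by
    by_contra hc
    have h1 := hmax _ hg.2.1 (by omega)
    have h2 := hg.1
    omega
  obtain ⟨g', hgL', hg'⟩ := hT.next (s + g) hg.2.1
  have hlen := D.fr.len
  have hY0 := c.t.Y0
  have hLn : D.L = D.n + D.N0 := rfl
  -- inside of the frame
  by_cases hb : i + m q ≤ s + g + c.t.Y - D.n + c.t.Y - 1
  · obtain ⟨t, h1, h2, h3⟩ := (hFRA d m c D B z col hT s hs g hg).1 q i hq (by omega) hb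
    exact h3 (hP t h1 h2)
  -- the last part: from `a ≥ ...` to the contradiction
  have hlast : (if g = D.L then s + 1 else s + c.t.Y + D.k1 + 1) ≤ i → False := by
    intro hai
    by_cases hb2 : i + m q ≤
        s + g + (if g' = D.L then 2 * c.t.Y + D.N0 - 1 else 2 * c.t.Y + D.k1 - 1 : ℤ)
    · obtain ⟨t, h1, h2, h3⟩ := hJJF d m c D B z col hT s hs g hg g' hg' q i hq hai hb2
      exact h3 (hP t h1 h2)
    · rcases hgL' with h | h
      · rw [if_pos h] at hb2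
        have hn : Nx B (s + g) D.L := h ▸ hg'
        refine hSMC d m c D B z col hT q i (i + m q) (s + g) (s + g + c.t.Y + D.N0) hq hqL
          ⟨s + g, hg.2.1, Or.inl ⟨hn, rfl, rfl⟩⟩ hig (by omega) (by omega) hP
      · rw [if_neg (by omega)] at hb2
        have hn : Nx B (s + g) (D.L + 1) := h ▸ hg'
        refine hSMC d m c D B z col hT q i (i + m q) (s + g) (s + g + c.t.Y + D.k1) hq hqL
          ⟨s + g, hg.2.1, Or.inr ⟨hn, Or.inl ⟨rfl, rfl⟩⟩⟩ hig (by omega) (by omega) hP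
  rcases hgL with h | h
  · refine hlast ?_
    rw [if_pos h]
    omega
  · by_cases ha : i ≤ s + c.t.Y + D.k1
    · have hn : Nx B s (D.L + 1) := h ▸ hg
      refine hSMC d m c D B z col hT q i (i + m q) (s + c.t.Y + D.k1) (s + c.t.Y + D.N0 + 1) hq
        hqL ⟨s, hs, Or.inr ⟨hn, Or.inr ⟨rfl, rfl⟩⟩⟩ ha (by omega) (by omega) hP
    · refine hlast ?_
      rw [if_neg (by omega)]
      omega

end Pool.Agent.H99.PG
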